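import Pool.Agent.Run7.h744.DD.Iface

/-!
Project DD, piece PS: smoothness, support and divergence of the packets.
-/

set_option autoImplicit false

open MeasureTheory Set
open scoped InnerProductSpace ContDiff
open H772R2.NS (E3)

namespace Pool.Agent.Run7.h480.DD

open Run7.h744.DD Topology

variable {F : Type} [NormedAddCommGroup F] [NormedSpace ℝ F]

/-- the partial derivative of a jointly smooth function is jointly smooth -/
lemma contDiff_pd (i : Fin 3) {f : ℝ → E3 → ℝ} (hf : ContDiff ℝ ∞ (fun p : ℝ × E3 => f p.1 p.2)) :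
    ContDiff ℝ ∞ (fun p : ℝ × E3 => pd i (f p.1) p.2) := by
  unfold pd
  have h1 : ContDiff ℝ ∞ (fun p : ℝ × E3 => fderiv ℝ (f p.1) p.2) := by
    refine ContDiff.fderiv (f := fun (p : ℝ × E3) (y : E3) => f p.1 y) (g := fun p => p.2) (m := ∞) ?_
      contDiff_snd (by simp)
    exact hf.comp ((contDiff_fst.comp contDiff_fst).prodMk contDiff_snd)
  exact h1.clm_apply contDiff_const

lemma contDiff_pd' (i : Fin 3) {f : E3 → ℝ} (hf : ContDiff ℝ ∞ f) : ContDiff ℝ ∞ (pd i f) := by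
  have h1 : ContDiff ℝ ∞ (fderiv ℝ f) := hf.fderiv_right (by simp)
  exact h1.clm_apply contDiff_const

lemma pd_comm (i j : Fin 3) {f : E3 → ℝ} (hf : ContDiff ℝ ∞ f) (x : E3) :
    pd i (pd j f) x = pd j (pd i f) x := by
  have h1 : ContDiff ℝ ∞ (fderiv ℝ f) := hf.fderiv_right (by simp)
  have hd : DifferentiableAt ℝ (fderiv ℝ f) x := (h1.differentiable (by simp)).differentiableAt
  have key : ∀ a b : Fin 3, pd a (pd b f) x =
      fderiv ℝ (fderiv ℝ f) x (EuclideanSpace.single a 1) (EuclideanSpace.single b 1) := by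
    intro a b
    unfold pd
    rw [fderiv_clm_apply hd (differentiableAt_const _)]
    simp
  rw [key, key]
  refine (hf.contDiffAt.isSymmSndFDerivAt ?_).eq _ _
  rw [minSmoothness_of_isRCLikeNormedField]
  exact WithTop.coe_le_coe.2 (le_top : (2 : ℕ∞) ≤ ⊤)

lemma contDiff_coord {f : E3 → E3} (hf : ContDiff ℝ ∞ f) (k : Fin 3) : ContDiff ℝ ∞ (fun x => f x k) :=
  (contDiff_euclidean.1 hf) k

lemma contDiff_bt (ν lam : ℝ) {U0 V : E3 → E3} {a : E3 → ℝ} (k : Fin 3) (hU : ContDiff ℝ ∞ U0)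
    (hV : ContDiff ℝ ∞ V) (ha : ContDiff ℝ ∞ a) :
    ContDiff ℝ ∞ (fun p : ℝ × E3 => bt ν lam U0 V a k p.1 p.2) := by
  have h1 : ContDiff ℝ ∞ (fun p : ℝ × E3 => pd k a p.2) := (contDiff_pd' k ha).comp contDiff_snd
  have h2 : ContDiff ℝ ∞ (fun p : ℝ × E3 => a p.2) := ha.comp contDiff_snd
  have h3 : ContDiff ℝ ∞ (fun p : ℝ × E3 => U0 p.2 k) := (contDiff_coord hU k).comp contDiff_snd
  have h4 : ContDiff ℝ ∞ (fun p : ℝ × E3 => V p.2 k) := (contDiff_coord hV k).comp contDiff_snd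
  have h5 : ContDiff ℝ ∞ (fun p : ℝ × E3 => p.1) := contDiff_fst
  unfold bt
  fun_prop

lemma contDiff_psi (ν lam : ℝ) {U0 V : E3 → E3} {a : E3 → ℝ} (k : Fin 3) (hU : ContDiff ℝ ∞ U0)
    (hV : ContDiff ℝ ∞ V) (ha : ContDiff ℝ ∞ a) :
    ContDiff ℝ ∞ (fun p : ℝ × E3 => psi ν lam U0 V a k p.1 p.2) := by
  have h1 := contDiff_bt ν lam k hU hV ha
  have h2 : ContDiff ℝ ∞ (fun p : ℝ × E3 => a p.2) := ha.comp contDiff_snd
  have h3 : ContDiff ℝ ∞ (fun p : ℝ × E3 => p.2 k) := (contDiff_coord contDiff_id k).comp contDiff_snd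
  have h5 : ContDiff ℝ ∞ (fun p : ℝ × E3 => p.1) := contDiff_fst
  unfold psi
  fun_prop

lemma pd_eq_zero {a : E3 → ℝ} (i : Fin 3) {x : E3} (h : a =ᶠ[𝓝 x] 0) : pd i a x = 0 := by
  unfold pd
  rw [h.fderiv_eq]
  simp

lemma psi_zero (ν lam : ℝ) (U0 V : E3 → E3) {a : E3 → ℝ} (k : Fin 3) (t : ℝ) {x : E3}
    (hx : x ∉ tsupport a) : psi ν lam U0 V a k t =ᶠ[𝓝 x] 0 := by
  have hopen : IsOpen (tsupport a)ᶜ := (isClosed_tsupport a).isOpen_compl
  filter_upwards [hopen.mem_nhds hx] with y hy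
  have h1 : a =ᶠ[𝓝 y] 0 := notMem_tsupport_iff_eventuallyEq.1 hy
  have h2 : a y = 0 := h1.self_of_nhds
  have h3 : pd k a y = 0 := pd_eq_zero k h1
  simp [psi, bt, h2, h3]

theorem ps (ν lam : ℝ) (U0 V : E3 → E3) (a : E3 → ℝ) (l : Fin 3) (hU : Sm U0) (hV : Sm V) (ha : Sm a) :
    SmF (tsupport a) (pkt ν lam U0 V a l) ∧
    ∀ t x, ∑ i, pd i (fun y => pkt ν lam U0 V a l t y i) x = 0 := by
  have hpsi := contDiff_psi ν lam (l + 1) hU.smooth hV.smooth ha.smooth
  refine ⟨⟨?_, ?_⟩, ?_⟩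
  · rw [contDiff_euclidean]
    intro i
    by_cases h1 : i = l
    · simp only [pkt, h1, if_true]
      exact contDiff_pd (l + 1) hpsi
    · by_cases h2 : i = l + 1
      · simp only [pkt, if_neg h1, if_pos h2]
        exact (contDiff_pd l hpsi).neg
      · simp only [pkt, if_neg h1, if_neg h2]
        exact contDiff_const
  · intro t x hx
    have h0 := psi_zero ν lam U0 V (l + 1) t hx
    ext i
    by_cases h1 : i = l
    · simp [pkt, h1, pd_eq_zero _ h0]
    · by_cases h2 : i = l + 1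
      · simp [pkt, h2, pd_eq_zero _ h0]
      · simp [pkt, h1, h2]
  · intro t x
    have hp : ContDiff ℝ ∞ (psi ν lam U0 V a (l + 1) t) :=
      hpsi.comp (contDiff_const.prodMk contDiff_id)
    have hc := pd_comm l (l + 1) hp x
    set g := psi ν lam U0 V a (l + 1) t with hg
    have hne : l + 1 ≠ l := by
      intro h
      fin_cases l <;> simp at h
    have h1 : (fun y => pkt ν lam U0 V a l t y l) = pd (l + 1) g := by
      funext y; simp [pkt, hg]
    have h2 : (fun y => pkt ν lam U0 V a l t y (l + 1)) = fun y => - pd l g y := by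
      funext y; simp [pkt, hg, hne]
    have h3 : ∀ i, i ≠ l → i ≠ l + 1 → (fun y => pkt ν lam U0 V a l t y i) = fun _ => 0 := by
      intro i hi1 hi2; funext y; simp [pkt, hi1, hi2]
    have h4 : ∑ i, pd i (fun y => pkt ν lam U0 V a l t y i) x =
        ∑ i ∈ ({l, l + 1} : Finset (Fin 3)), pd i (fun y => pkt ν lam U0 V a l t y i) x := by
      symm
      refine Finset.sum_subset (Finset.subset_univ _) fun i _ hi => ?_
      rw [Finset.mem_insert, Finset.mem_singleton, not_or] at hi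
      rw [h3 i hi.1 hi.2]
      simp [pd]
    rw [h4, Finset.sum_pair hne.symm, h1, h2, hc]
    have h5 : pd (l + 1) (fun y => - pd l g y) x = - pd (l + 1) (pd l g) x := by
      unfold pd
      rw [fderiv_fun_neg]
      simp
    rw [h5]
    ring

theorem t_PS : S_PS := fun ν lam U0 V a l hU hV ha => ps ν lam U0 V a l hU hV ha

end Pool.Agent.Run7.h480.DD
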